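import Pool.Agent.TH299.PG.FinQ

/-!
# A positive proportion of the gaps is below `9/16` of the average spacing, unconditionally

Idea of the proof. Let `A(t)` be a Dirichlet polynomial of length `T^x`, `x < 1`. The mean value of
`|A|²` weighted by the number of zeros in a window of `c` mean spacings around `t`, compared with
the mean value of `|A|²`, shows that not all the zeros are on the line and `c`-separated, when `A`
is suitable. To get many zeros (bad zeros: off the line, or multiple, or closer than `c`) one
multiplies `A` by the trigonometric polynomials that vanish at all the bad zeros; this loses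
nothing if there are few of them, provided that `|A|²` is uniformly integrable as `T → ∞`. The
starting files ensure this by a bound for the second moment of `|A|²`, that is by the fourth moment
of `A`, which restricts the length of `A` to `T^(1/2)` and gives `c > 2/3`. Here `A` is supported on
products of distinct primes from finitely many ranges `(T^a, T^b]`, at most one from each; a range
with `b < 1/k` is charged `1/k`, and only products of total charge less than `1` are used. Then
`|A|²` is bounded by powers smaller than one of the quantities `|P_j|^(2 k_j)` (`P_j` the polynomial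
of the `j`-th range), whose mean values are bounded because `P_j^(k_j)` has length less than `T`.
So `A` has length close to `T`, and `|A|²` is uniformly integrable. With 109 ranges and optimised
weights (the final inequality is checked by exact integer arithmetic in Lean's kernel) every
`c ≥ 3.534 / 2π = 0.56245...` is admissible.
-/

namespace Pool.Agent.Results.MP_ca0a54_nt.NineSixteenths

/-- multiplicity of `s` as a zero of the Riemann zeta function (order of vanishing at `s`) -/
noncomputable def zmult (s : ℂ) : ℕ := analyticOrderNatAt riemannZeta s

/-- the number of nontrivial zeros of `ζ` with ordinate in `(0, t]`, with multiplicity -/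
noncomputable def NZ (t : ℝ) : ℕ :=
  ∑ᶠ s ∈ {s : ℂ | riemannZeta s = 0 ∧ 0 < s.re ∧ s.re < 1 ∧ 0 < s.im ∧ s.im ≤ t}, zmult s

/-- for `n ≥ 1`: the `n`-th positive ordinate `γ_n` of a nontrivial zero of `ζ`, the ordinates
being listed in nondecreasing order and repeated according to multiplicity -/
noncomputable def ord (n : ℕ) : ℝ := sInf {t : ℝ | n ≤ NZ t}

/-- A positive proportion of the gaps between consecutive ordinates of zeta zeros is smaller than
`9/16` times the average spacing, unconditionally: for every `θ > 999/1000` there are `κ > 0` and
`T0` such that for all `T ≥ T0` and every interval `[t0, t0 + H]` inside `[T, 2T]` of length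
`H ≥ T^θ` there are at least `κ H log T` indices `n` with `t0 ≤ γ_n`, `γ_(n+1) ≤ t0 + H` and
`γ_(n+1) - γ_n < (9/16) (2π / log T)`. -/
theorem result : ∀ θ : ℝ, 999 / 1000 < θ →
    ∃ κ T0 : ℝ, 0 < κ ∧ ∀ T t0 H : ℝ, T0 ≤ T → T ≤ t0 → t0 + H ≤ 2 * T → T ^ θ ≤ H →
      κ * H * Real.log T ≤ ({n : ℕ | 1 ≤ n ∧ t0 ≤ ord n ∧ ord (n + 1) ≤ t0 + H ∧
        ord (n + 1) - ord n < 9 / 16 * (2 * Real.pi / Real.log T)}.ncard : ℝ) :=
  fun θ h => Pool.Agent.TH299.PG.pos_prop2 θ h

end Pool.Agent.Results.MP_ca0a54_nt.NineSixteenths
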